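import Pool.Agent.Run7.h563.LS.G

set_option autoImplicit false

/-!
# Clusters of zeros of zeta carry a super-exponentially small part of every moment

Unconditional. For every real `β > 0`, in Gaussian windows of width `Δ`, from
`B / √(log T)` up to `T / (2 log T)`, the points of the critical line within `c / log T` of which
there are at least `m` zeros contribute at most `(1 + ε) (e^(1 + ε) c / m)^(β m)` times the whole
moment of order `β`, uniformly in `c ≤ m ≤ (log T) / 8`. Zeros off the line are counted too, and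
all of them with multiplicity.
-/

namespace Run7.h563.Kept.ClustersInMoments

open MeasureTheory

noncomputable section

/-- the part of the moment of order `β` of the zeta function on the critical line carried by the
set `S`, in the Gaussian window of centre `T` and width `Δ` -/
def moment (β T Δ : ℝ) (S : Set ℝ) : ℝ :=
  ∫ t in S, ‖riemannZeta (1 / 2 + t * Complex.I)‖ ^ β * Real.exp (-((t - T) / Δ) ^ 2)

/-- the number of zeros of the zeta function, with multiplicity, in the closed disc of centre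
`1/2 + i t` and radius `r` -/
def zerosNear (t r : ℝ) : ℕ :=
  ∑ᶠ (ρ : ℂ) (_ : ρ ∈ Metric.closedBall (1 / 2 + t * Complex.I : ℂ) r),
    analyticOrderNatAt riemannZeta ρ

/-- **Clusters of zeros carry little of any moment.** -/
theorem result (β : ℝ) (hβ : 0 < β) (ε : ℝ) (hε : 0 < ε) :
    ∃ B T₀ : ℝ, ∀ T Δ : ℝ, T₀ ≤ T → B / √(Real.log T) ≤ Δ → Δ ≤ T / (2 * Real.log T) →
      0 < moment β T Δ Set.univ ∧
      ∀ (m : ℕ) (c : ℝ) (S : Set ℝ), MeasurableSet S → 0 < c → c ≤ m → (m : ℝ) ≤ Real.log T / 8 →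
        (∀ t ∈ S, m ≤ zerosNear t (c / Real.log T)) →
        moment β T Δ S ≤
          (1 + ε) * (Real.exp (1 + ε) * c / m) ^ (β * m) * moment β T Δ Set.univ := by
  obtain ⟨B, T₀, hB, hT₀, h⟩ := Run7.h563.LS.cluster_zeta (κ := β * ε) hβ (by positivity) hε
  refine ⟨B, T₀, fun T Δ hT hΔ hΔT => ?_⟩
  have hT3 : 3 ≤ T := by linarith
  have hlog := Run7.h563.LS.log_ge_one hT3
  have hL0 : 0 < Real.log T := by linarith
  have hsL : 0 < √(Real.log T) := Real.sqrt_pos.mpr hL0
  have hB' : B ≤ Δ * √(Real.log T) := (div_le_iff₀ hsL).mp hΔ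
  have hΔ0 : 0 < Δ := lt_of_lt_of_le (by positivity) hΔ
  have hB2 : B ≤ Δ ^ 2 * Real.log T := by
    have e : Δ ^ 2 * Real.log T = (Δ * √(Real.log T)) ^ 2 := by
      rw [mul_pow, Real.sq_sqrt hL0.le]
    rw [e]
    nlinarith
  have hhalf : ((1 / 2 : ℝ) : ℂ) = 1 / 2 := by push_cast; ring
  obtain ⟨hJ, hc⟩ := h T Δ hT hΔ0 hB2 hΔT
  have eJ : moment β T Δ Set.univ = Run7.h563.LS.JB β T Δ (1 / 2) := by
    unfold moment Run7.h563.LS.JB Q97.MM.wt
    rw [setIntegral_univ, hhalf]
  rw [eJ]
  refine ⟨hJ, fun m c S hS hc0 hcm hm8 hz => ?_⟩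
  have hm0 : (0 : ℝ) < m := lt_of_lt_of_le hc0 hcm
  have h1 := hc (c / Real.log T) (m / Real.log T) (by positivity) (by gcongr) (by
    rw [div_le_iff₀ hL0]; linarith) m S hS (fun y hy => by
      have := hz y hy
      unfold zerosNear at this
      unfold Run7.h563.LS.zeroCount
      rw [hhalf]
      exact this)
  have eS : moment β T Δ S = ∫ y in S, ‖riemannZeta (((1 / 2 : ℝ) : ℂ) + y * Complex.I)‖ ^ β *
      Q97.MM.wt T Δ y := by
    unfold moment Q97.MM.wt
    rw [hhalf]
  rw [eS]
  refine h1.trans (le_of_eq ?_)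
  have e1 : (β + β * ε) * (m / Real.log T) * Real.log T = (1 + ε) * (β * m) := by
    field_simp
  have e2 : c / Real.log T / (m / Real.log T) = c / m := by
    field_simp
  rw [e1, e2, mul_div_assoc, Real.mul_rpow (Real.exp_pos _).le (by positivity), ← Real.exp_mul]
  ring

end

end Run7.h563.Kept.ClustersInMoments
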